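import Pool.Agent.Q201.ML.Energy

/-!
# Large values of Dirichlet polynomials on sets of large approximate additive energy

Q1 asks for `R ≤ C N² V⁻² T^ε` for all `1`-spaced families in `[0, T]` with `|D(it)| ≥ V`,
`V² ≥ N T^ε`; it is known for `V² > N T^(1/2+ε)`.

Here the family is an arbitrary `1`-spaced finite set `S ⊂ [0, T]` of reals whose approximate
additive energy `energy S`, the number of the quadruples `(a, b, c, d)` of elements of `S` with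
`|a - b + c - d| ≤ 1`, is at least `|S|³ / K`. For every `k ≥ 2` let
`M = N^(1 - k/(2^k - 2)) T^(1/(2^k - 2))` (so `M < N` if and only if `T < N^k`). Then, for all
`|a_n| ≤ 1`:

* `|S| V² ≤ C N^ε √K (N² + K M² |S|)`, for every `V > 0`;
* `|S| ≤ C √K N^(2+ε) V⁻²` as soon as `V² ≥ C K^(3/2) N^ε M²`.

The method of Halász and Montgomery gives the bound of Q1 for arbitrary sets in the range
`V² ≥ N^(1+ε) M`; here `N M` is replaced by `M²`.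
-/

set_option autoImplicit false

namespace Pool.Agent.Results.MP_a93a41_nt.ApproximateEnergy

open Finset Pool.Agent.Q201.ML

theorem term_eq (N : ℕ) (a : ℕ → ℂ) (t : ℝ) :
    ‖∑ n ∈ Icc 1 N, a n * (n : ℂ) ^ (-((t : ℂ) * Complex.I))‖ =
      ‖Dp N (fun n => (starRingEnd ℂ) (a n)) t‖ := by
  rw [← RCLike.norm_conj (Dp N (fun n => (starRingEnd ℂ) (a n)) t)]
  congr 1
  unfold Dp
  rw [map_sum]
  refine sum_congr rfl fun n hn => ?_
  have hn1 : (n : ℂ) ≠ 0 := by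
    have := (mem_Icc.1 hn).1
    exact_mod_cast (by omega : n ≠ 0)
  rw [map_mul, Complex.conj_conj, conj_exp, Complex.cpow_def_of_ne_zero hn1]
  congr 2
  rw [← Complex.natCast_log]
  push_cast
  ring

theorem result (k : ℕ) (hk : 2 ≤ k) (ε : ℝ) (hε : 0 < ε) : ∃ C : ℝ, 0 < C ∧
    ∀ (N : ℕ) (T V K : ℝ) (a : ℕ → ℂ) (S : Finset ℝ),
      1 ≤ N → 1 ≤ T → 0 < V → 1 ≤ K → (∀ n, ‖a n‖ ≤ 1) →
      (∀ t ∈ S, 0 ≤ t ∧ t ≤ T ∧
        V ≤ ‖∑ n ∈ Icc 1 N, a n * (n : ℂ) ^ (-((t : ℂ) * Complex.I))‖) →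
      (∀ t ∈ S, ∀ u ∈ S, t ≠ u → 1 ≤ |t - u|) →
      (S.card : ℝ) ^ 3 ≤ K * energy S →
      (S.card * V ^ 2 ≤ C * (N : ℝ) ^ ε * √K * ((N : ℝ) ^ 2 + K *
        ((N : ℝ) ^ (1 - (k : ℝ) / (2 ^ k - 2)) * T ^ ((1 : ℝ) / (2 ^ k - 2))) ^ 2 * S.card)) ∧
      (C * (N : ℝ) ^ ε * (K * √K) *
        ((N : ℝ) ^ (1 - (k : ℝ) / (2 ^ k - 2)) * T ^ ((1 : ℝ) / (2 ^ k - 2))) ^ 2 ≤ V ^ 2 →
        (S.card : ℝ) ≤ C * √K * (N : ℝ) ^ ε * (N : ℝ) ^ 2 / V ^ 2) := by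
  obtain ⟨C, hC, h⟩ := large_values k hk ε hε
  refine ⟨2 * C, by linarith, ?_⟩
  intro N T V K a S hN hT hV hK ha hS hsp hE
  have h1 := h N T V K S (fun n => (starRingEnd ℂ) (a n)) hN hV.le hK
    (fun n => by rw [RCLike.norm_conj]; exact ha n) (fun t ht => ⟨(hS t ht).1, (hS t ht).2.1⟩) hsp
    (fun t ht => by rw [← term_eq]; exact (hS t ht).2.2) hE
  have hM : MT k N T = (N : ℝ) ^ (1 - (k : ℝ) / (2 ^ k - 2)) * T ^ ((1 : ℝ) / (2 ^ k - 2)) := rfl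
  rw [hM] at h1
  set M := (N : ℝ) ^ (1 - (k : ℝ) / (2 ^ k - 2)) * T ^ ((1 : ℝ) / (2 ^ k - 2)) with hMdef
  have hK0 : 0 < K := by linarith
  have hN0 : (0 : ℝ) ≤ (N : ℝ) ^ ε := by positivity
  have hB : 0 ≤ C * (N : ℝ) ^ ε * √K * ((N : ℝ) ^ 2 + K * M ^ 2 * S.card) := by positivity
  refine ⟨?_, ?_⟩
  · calc _ ≤ _ := h1
      _ ≤ 2 * (C * (N : ℝ) ^ ε * √K * ((N : ℝ) ^ 2 + K * M ^ 2 * S.card)) := by linarith
      _ = _ := by ring
  · intro hV2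
    have hV2' : 0 < V ^ 2 := by positivity
    rw [le_div_iff₀ hV2']
    have h2 : 2 * (C * (N : ℝ) ^ ε * √K * (K * M ^ 2 * S.card)) ≤ S.card * V ^ 2 := by
      calc _ = S.card * (2 * C * (N : ℝ) ^ ε * (K * √K) * M ^ 2) := by ring
        _ ≤ _ := by gcongr
    nlinarith

end Pool.Agent.Results.MP_a93a41_nt.ApproximateEnergy
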