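import Pool.Agent.Q201.ML.LG
import Pool.Agent.Q239.LV.Real

/-!
# Large values of Dirichlet polynomials and the dual large sieve with deleted frequencies

Q1 (large values at `1`-spaced points of `[0,T]`, for all `N, T ≥ 1`, `|a_n| ≤ 1`, loss `T^ε`) is
equivalent to an `ℓ²` form with weights, to the dual large sieve inequality for all but few of the
frequencies of any set `J`, and to an estimate of a first moment over a part, of proportion
`T^(-ε)`, of the frequencies, for sets of integers and with all coefficients equal to one.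
-/

set_option autoImplicit false

namespace Pool.Agent.Results.MP_a93a41_nt.DeletedFrequencies

open Finset

/-- `n^{-it}` -/
noncomputable def e (n : ℕ) (t : ℝ) : ℂ := (n : ℂ) ^ (-((t : ℂ) * Complex.I))

/-- `S` is a `1`-separated finite subset of `[0, T]`. -/
def Spaced (T : ℝ) (S : Finset ℝ) : Prop :=
  (∀ t ∈ S, 0 ≤ t ∧ t ≤ T) ∧ ∀ t ∈ S, ∀ u ∈ S, t ≠ u → 1 ≤ |t - u|

/-- The statement of Q1 (the frozen statement `S18085`). -/
def LargeValues : Prop :=
  ∀ ε : ℝ, 0 < ε → ∃ C : ℝ, 0 < C ∧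
    ∀ (N : ℕ) (T V : ℝ) (a : ℕ → ℂ) (S : Finset ℝ),
      1 ≤ N → 1 ≤ T → 0 < V →
      (∀ n, ‖a n‖ ≤ 1) →
      (N : ℝ) * T ^ ε ≤ V ^ 2 →
      (∀ t ∈ S, 0 ≤ t ∧ t ≤ T ∧
        V ≤ ‖∑ n ∈ Finset.Icc 1 N, a n * (n : ℂ) ^ (-((t : ℂ) * Complex.I))‖) →
      (∀ t ∈ S, ∀ u ∈ S, t ≠ u → 1 ≤ |t - u|) →
      (S.card : ℝ) ≤ C * (N : ℝ) ^ 2 / V ^ 2 * T ^ ε

/-- The `ℓ²` form with weights `w n` of sum one, which depend on `N` and `S`. -/
def Weighted : Prop :=
  ∀ ε : ℝ, 0 < ε → ∃ C : ℝ, 0 < C ∧ ∀ (N : ℕ) (T : ℝ) (S : Finset ℝ), 1 ≤ N → 1 ≤ T →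
    Spaced T S →
      ∃ w : ℕ → ℝ, (∀ n, 0 ≤ w n) ∧ ∑ n ∈ Icc 1 N, w n = 1 ∧
        ∀ a : ℕ → ℂ, ∑ t ∈ S, ‖∑ n ∈ Icc 1 N, a n * e n t‖ ^ 2
          ≤ C * T ^ ε * ((N : ℝ) + S.card) * N * ∑ n ∈ Icc 1 N, w n * ‖a n‖ ^ 2

/-- The dual large sieve for all but few of the frequencies of any set `J`. -/
def FewDeleted : Prop :=
  ∀ ε : ℝ, 0 < ε → ∃ C : ℝ, 0 < C ∧ ∀ (N : ℕ) (T : ℝ) (S : Finset ℝ), 1 ≤ N → 1 ≤ T →
    Spaced T S → ∀ J : Finset ℕ, J ⊆ Icc 1 N → ∀ η : ℝ, 0 < η →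
      ∃ I : Finset ℕ, I ⊆ J ∧ ((J \ I).card : ℝ) ≤ η * J.card ∧
        ∀ c : ℝ → ℂ, ∑ n ∈ I, ‖∑ t ∈ S, c t * e n t‖ ^ 2
          ≤ C / η * T ^ ε * ((N : ℝ) + S.card) * (N / J.card) * ∑ t ∈ S, ‖c t‖ ^ 2

/-- A first moment, for sets of at most `N` integers and with coefficients one, over a part, of
proportion `1 / (C T^ε)`, of the frequencies of any set `J` with `|J| ≥ N |W|^(-1/2)`. -/
def SomeKept : Prop :=
  ∀ ε : ℝ, 0 < ε → ∃ C : ℝ, 0 < C ∧ ∀ (N : ℕ) (T : ℝ) (W : Finset ℤ), 1 ≤ N → 1 ≤ T →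
    (∀ t ∈ W, 0 ≤ (t : ℝ) ∧ (t : ℝ) ≤ T) → W.card ≤ N →
      ∀ J : Finset ℕ, J ⊆ Icc 1 N → (N : ℝ) ≤ J.card * Real.sqrt W.card →
        ∃ I : Finset ℕ, I ⊆ J ∧ (J.card : ℝ) ≤ C * T ^ ε * I.card ∧
          ∑ n ∈ I, ‖∑ t ∈ W, e n t‖ ≤ C * T ^ ε * N * Real.sqrt W.card

/-- duality -/
theorem dual {α β : Type} (I : Finset α) (S : Finset β) (M : α → β → ℂ) (L : ℝ) (hL : 0 ≤ L)
    (h : ∀ b : α → ℂ, ∑ t ∈ S, ‖∑ n ∈ I, b n * M n t‖ ^ 2 ≤ L * ∑ n ∈ I, ‖b n‖ ^ 2)
    (c : β → ℂ) : ∑ n ∈ I, ‖∑ t ∈ S, c t * M n t‖ ^ 2 ≤ L * ∑ t ∈ S, ‖c t‖ ^ 2 := by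
  set y : α → ℂ := fun n => ∑ t ∈ S, c t * M n t with hy
  set X : ℝ := ∑ n ∈ I, ‖y n‖ ^ 2 with hX
  set b : α → ℂ := fun n => (starRingEnd ℂ) (y n) with hb
  have h1 := h b
  have hbn : ∑ n ∈ I, ‖b n‖ ^ 2 = X := by
    refine sum_congr rfl fun n _ => ?_
    rw [hb]
    simp only [RCLike.norm_conj]
  rw [hbn] at h1
  have h2 : (X : ℂ) = ∑ t ∈ S, c t * ∑ n ∈ I, b n * M n t := by
    have e1 : ∀ t ∈ S, c t * ∑ n ∈ I, b n * M n t = ∑ n ∈ I, b n * (c t * M n t) := by
      intro t _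
      rw [mul_sum]
      refine sum_congr rfl fun n _ => ?_
      ring
    rw [sum_congr rfl e1, sum_comm, hX]
    push_cast
    refine sum_congr rfl fun n _ => ?_
    rw [← mul_sum, hb]
    change ((‖y n‖ : ℝ) : ℂ) ^ 2 = (starRingEnd ℂ) (y n) * y n
    rw [mul_comm, Complex.mul_conj, Complex.normSq_eq_norm_sq]
    push_cast
    rfl
  have h3 : X ≤ ∑ t ∈ S, ‖c t‖ * ‖∑ n ∈ I, b n * M n t‖ := by
    have : ‖(X : ℂ)‖ ≤ ∑ t ∈ S, ‖c t‖ * ‖∑ n ∈ I, b n * M n t‖ := by
      rw [h2]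
      refine (norm_sum_le _ _).trans (le_of_eq ?_)
      simp only [norm_mul]
    rw [Complex.norm_real] at this
    exact (le_abs_self X).trans this
  have hX0 : 0 ≤ X := by positivity
  have h4 : X ^ 2 ≤ (∑ t ∈ S, ‖c t‖ ^ 2) * (L * X) := by
    calc X ^ 2 ≤ (∑ t ∈ S, ‖c t‖ * ‖∑ n ∈ I, b n * M n t‖) ^ 2 := by gcongr
      _ ≤ (∑ t ∈ S, ‖c t‖ ^ 2) * ∑ t ∈ S, ‖∑ n ∈ I, b n * M n t‖ ^ 2 :=
          sum_mul_sq_le_sq_mul_sq _ _ _
      _ ≤ _ := by gcongr
  rcases hX0.eq_or_lt with h | h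
  · rw [← h]
    positivity
  · have : X * X ≤ (L * ∑ t ∈ S, ‖c t‖ ^ 2) * X := by nlinarith
    exact le_of_mul_le_mul_right this h

/-- weights for the frequencies in `J` -/
theorem weights_on (N : ℕ) (S : Finset ℝ) (B : ℝ) (hB0 : 0 < B)
    (hB : ∀ a : ℕ → ℂ, (∀ n, ‖a n‖ ≤ 1) → ∑ t ∈ S, ‖∑ n ∈ Icc 1 N, a n * e n t‖ ^ 2 ≤ B)
    (J : Finset ℕ) (hJ : J ⊆ Icc 1 N) (hne : J.Nonempty) :
    ∃ w : ℕ → ℝ, (∀ n, 0 ≤ w n) ∧ ∑ n ∈ J, w n = 1 ∧
      ∀ a : ℕ → ℂ, ∑ t ∈ S, ‖∑ n ∈ J, a n * e n t‖ ^ 2 ≤ 48 * B * ∑ n ∈ J, w n * ‖a n‖ ^ 2 := by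
  classical
  have : Nonempty J := hne.to_subtype
  have key : ∀ a : ℕ → ℂ, Pool.Agent.Q201.ML.LG.Q (ι := J) (κ := S) (fun n t => e n t)
      (fun n => a n) = ∑ t ∈ S, ‖∑ n ∈ J, a n * e n t‖ ^ 2 := by
    intro a
    unfold Pool.Agent.Q201.ML.LG.Q
    rw [← Finset.sum_coe_sort S (fun t => ‖∑ n ∈ J, a n * e n t‖ ^ 2)]
    refine sum_congr rfl fun t _ => ?_
    rw [← Finset.sum_coe_sort J (fun n => a n * e n t)]
  obtain ⟨w, hw0, hw1, hw⟩ := Pool.Agent.Q201.ML.LG.weights (ι := J) (κ := S)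
    (fun n t => e n t) B hB0 (by
      intro a ha
      set a' : ℕ → ℂ := fun n => if h : n ∈ J then a ⟨n, h⟩ else 0 with ha'
      have e1 : a = fun n : J => a' n := by
        funext n
        simp [ha', n.2]
      rw [e1, key]
      have h1 := hB a' (by
        intro n
        simp only [ha']
        split_ifs with h
        · exact ha _
        · simp)
      refine le_trans (le_of_eq ?_) h1
      refine sum_congr rfl fun t _ => ?_
      congr 2
      refine sum_subset hJ fun n _ hn => ?_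
      simp [ha', hn])
  refine ⟨fun n => if h : n ∈ J then w ⟨n, h⟩ else 0, ?_, ?_, ?_⟩
  · intro n
    simp only
    split_ifs
    · exact hw0 _
    · exact le_rfl
  · rw [← Finset.sum_coe_sort J, ← hw1]
    refine sum_congr rfl fun n _ => ?_
    simp [n.2]
  · intro a
    have h1 := hw (fun n => a n)
    rw [key] at h1
    refine h1.trans (le_of_eq ?_)
    congr 1
    rw [← Finset.sum_coe_sort J]
    refine sum_congr rfl fun n _ => ?_
    simp [n.2]

/-- the mean square bound from large values -/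
theorem mean_square (h : LargeValues) (ε : ℝ) (hε : 0 < ε) : ∃ C : ℝ, 0 < C ∧
    ∀ (N : ℕ) (T : ℝ) (S : Finset ℝ), 1 ≤ N → 1 ≤ T → Spaced T S →
      ∀ a : ℕ → ℂ, (∀ n, ‖a n‖ ≤ 1) →
        ∑ t ∈ S, ‖∑ n ∈ Icc 1 N, a n * e n t‖ ^ 2 ≤ C * T ^ ε * ((N : ℝ) + S.card) * N := by
  classical
  set δ : ℝ := ε / 2 with hδ
  have hδ0 : 0 < δ := by positivity
  obtain ⟨C, hC, h1⟩ := h δ hδ0
  refine ⟨1 + C * (1 + 2 ^ δ / δ), by positivity, fun N T S hN hT hS a ha => ?_⟩
  have hN0 : (0 : ℝ) < N := by exact_mod_cast hN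
  have hT0 : 0 < T := by linarith
  have hTδ : 1 ≤ T ^ δ := Real.one_le_rpow hT hδ0.le
  have hTε : T ^ ε = T ^ δ * T ^ δ := by
    rw [← Real.rpow_add hT0]
    congr 1
    rw [hδ]
    ring
  set f : ℝ → ℝ := fun t => ‖∑ n ∈ Icc 1 N, a n * e n t‖ with hf
  have hf0 : ∀ t, 0 ≤ f t := fun t => norm_nonneg _
  set X : ℝ := C * (N : ℝ) ^ 2 * T ^ δ with hX
  have hX0 : 0 < X := by positivity
  set S' : Finset ℝ := S.filter fun t => (N : ℝ) * T ^ δ ≤ f t ^ 2 with hS'
  have key : ∀ R : ℕ, ∀ W : Finset ℝ, W ⊆ S' → W.card = R →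
      ∑ t ∈ W, f t ^ 2 ≤ X * ∑ k ∈ range R, 1 / ((k : ℝ) + 1) := by
    intro R
    induction R with
    | zero =>
      intro W _ hc
      rw [card_eq_zero] at hc
      subst hc
      simp
    | succ R ih =>
      intro W hW hc
      have hne : W.Nonempty := by
        rw [← card_pos]
        omega
      obtain ⟨t0, ht0, hmin⟩ := exists_min_image W f hne
      have h2 := ih (W.erase t0) ((erase_subset _ _).trans hW)
        (by rw [card_erase_of_mem ht0]; omega)
      have h3 := (mem_filter.1 (hW ht0)).2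
      have h4 : 0 < f t0 := by
        refine lt_of_le_of_ne (hf0 t0) fun h => ?_
        rw [← h] at h3
        have : 0 < (N : ℝ) * T ^ δ := by positivity
        nlinarith
      have h5 := h1 N T (f t0) a W hN hT h4 ha h3 (fun t ht => ⟨
        (hS.1 t (mem_filter.1 (hW ht)).1).1, (hS.1 t (mem_filter.1 (hW ht)).1).2, hmin t ht⟩)
        (fun t ht u hu => hS.2 t (mem_filter.1 (hW ht)).1 u (mem_filter.1 (hW hu)).1)
      have h6 : f t0 ^ 2 ≤ X * (1 / ((R : ℝ) + 1)) := by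
        rw [hc] at h5
        push_cast at h5
        rw [mul_one_div, le_div_iff₀ (by positivity)]
        have h7 : C * (N : ℝ) ^ 2 / f t0 ^ 2 * T ^ δ = X / f t0 ^ 2 := by
          rw [hX]
          ring
        rw [h7, le_div_iff₀ (by positivity)] at h5
        linarith
      rw [sum_range_succ, ← sum_erase_add W _ ht0, mul_add]
      linarith
  have h2 := key S'.card S' subset_rfl rfl
  have h3 : ∑ k ∈ range S'.card, 1 / ((k : ℝ) + 1) ≤ 1 + Real.log S'.card := by
    have h4 := harmonic_le_one_add_log S'.card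
    rw [harmonic] at h4
    push_cast at h4
    simpa [one_div] using h4
  have h4 : (S'.card : ℝ) ≤ 2 * T := by
    have h5 := Pool.Agent.Q239.LV.card_le_of_sep T hT S hS.1 hS.2
    have h6 : (S'.card : ℝ) ≤ S.card := by exact_mod_cast card_le_card (filter_subset _ _)
    linarith
  have h5 : Real.log S'.card ≤ 2 ^ δ / δ * T ^ δ := by
    rcases (Nat.cast_nonneg S'.card : (0 : ℝ) ≤ S'.card).eq_or_lt with h | h
    · rw [← h, Real.log_zero]
      positivity
    · calc Real.log S'.card ≤ Real.log (2 * T) := Real.log_le_log h h4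
        _ ≤ (2 * T) ^ δ / δ := Real.log_le_rpow_div (by positivity) hδ0
        _ = _ := by
          rw [Real.mul_rpow (by norm_num) hT0.le]
          ring
  have h6 : ∑ t ∈ S', f t ^ 2 ≤ C * (1 + 2 ^ δ / δ) * T ^ ε * N ^ 2 := by
    refine h2.trans ?_
    have h7 : ∑ k ∈ range S'.card, 1 / ((k : ℝ) + 1) ≤ (1 + 2 ^ δ / δ) * T ^ δ := by
      have : (0 : ℝ) ≤ 2 ^ δ / δ := by positivity
      nlinarith
    calc X * ∑ k ∈ range S'.card, 1 / ((k : ℝ) + 1) ≤ X * ((1 + 2 ^ δ / δ) * T ^ δ) := by gcongr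
      _ = _ := by
        rw [hX, hTε]
        ring
  have h7 : ∑ t ∈ S.filter (fun t => ¬ (N : ℝ) * T ^ δ ≤ f t ^ 2), f t ^ 2 ≤
      S.card * (N * T ^ ε) := by
    calc ∑ t ∈ S.filter (fun t => ¬ (N : ℝ) * T ^ δ ≤ f t ^ 2), f t ^ 2
        ≤ ∑ t ∈ S.filter (fun t => ¬ (N : ℝ) * T ^ δ ≤ f t ^ 2), (N * T ^ ε : ℝ) := by
          refine sum_le_sum fun t ht => ?_
          have h8 := (mem_filter.1 ht).2
          push Not at h8
          refine h8.le.trans ?_
          rw [hTε]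
          have : T ^ δ ≤ T ^ δ * T ^ δ := by nlinarith
          gcongr
      _ = ((S.filter (fun t => ¬ (N : ℝ) * T ^ δ ≤ f t ^ 2)).card : ℝ) * (N * T ^ ε) := by
          rw [sum_const, nsmul_eq_mul]
      _ ≤ _ := by
          gcongr
          exact filter_subset _ _
  have h8 : ∑ t ∈ S, f t ^ 2 ≤ C * (1 + 2 ^ δ / δ) * T ^ ε * N ^ 2 + S.card * (N * T ^ ε) := by
    rw [← sum_filter_add_sum_filter_not S (fun t => (N : ℝ) * T ^ δ ≤ f t ^ 2)]
    exact add_le_add h6 h7
  refine h8.trans ?_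
  have e1 : (1 + C * (1 + 2 ^ δ / δ)) * T ^ ε * ((N : ℝ) + S.card) * N =
      C * (1 + 2 ^ δ / δ) * T ^ ε * N ^ 2 + S.card * (N * T ^ ε) + (T ^ ε * N ^ 2 +
        C * (1 + 2 ^ δ / δ) * T ^ ε * N * S.card) := by ring
  rw [e1]
  have : 0 ≤ T ^ ε * (N : ℝ) ^ 2 + C * (1 + 2 ^ δ / δ) * T ^ ε * N * S.card := by positivity
  linarith

theorem weighted_of_large (h : LargeValues) : Weighted := by
  intro ε hε
  obtain ⟨C, hC, h1⟩ := mean_square h ε hε
  refine ⟨48 * C, by positivity, fun N T S hN hT hS => ?_⟩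
  have hN' : (0 : ℝ) < N := by exact_mod_cast hN
  have hT0 : 0 < T := by linarith
  obtain ⟨w, hw0, hw1, hw⟩ := weights_on N S (C * T ^ ε * ((N : ℝ) + S.card) * N)
    (by positivity) (h1 N T S hN hT hS) (Icc 1 N) subset_rfl ⟨1, by simp [hN]⟩
  refine ⟨w, hw0, hw1, fun a => (hw a).trans (le_of_eq ?_)⟩
  ring

/-- from the weighted form on all the frequencies to all `J`, by the mean square -/
theorem mean_of_weighted (h : Weighted) (ε : ℝ) (hε : 0 < ε) : ∃ C : ℝ, 0 < C ∧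
    ∀ (N : ℕ) (T : ℝ) (S : Finset ℝ), 1 ≤ N → 1 ≤ T → Spaced T S →
      ∀ a : ℕ → ℂ, (∀ n, ‖a n‖ ≤ 1) →
        ∑ t ∈ S, ‖∑ n ∈ Icc 1 N, a n * e n t‖ ^ 2 ≤ C * T ^ ε * ((N : ℝ) + S.card) * N := by
  obtain ⟨C, hC, h1⟩ := h ε hε
  refine ⟨C, hC, fun N T S hN hT hS a ha => ?_⟩
  have hT0 : 0 < T := by linarith
  obtain ⟨w, hw0, hw1, hw⟩ := h1 N T S hN hT hS
  refine (hw a).trans ?_
  have h2 : ∑ n ∈ Icc 1 N, w n * ‖a n‖ ^ 2 ≤ 1 := by
    rw [← hw1]
    refine sum_le_sum fun n _ => ?_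
    have : ‖a n‖ ^ 2 ≤ 1 := by nlinarith [ha n, norm_nonneg (a n)]
    nlinarith [hw0 n]
  calc _ ≤ C * T ^ ε * ((N : ℝ) + S.card) * N * 1 := by gcongr
    _ = _ := by ring

theorem few_of_mean (h : ∀ ε : ℝ, 0 < ε → ∃ C : ℝ, 0 < C ∧
    ∀ (N : ℕ) (T : ℝ) (S : Finset ℝ), 1 ≤ N → 1 ≤ T → Spaced T S →
      ∀ a : ℕ → ℂ, (∀ n, ‖a n‖ ≤ 1) →
        ∑ t ∈ S, ‖∑ n ∈ Icc 1 N, a n * e n t‖ ^ 2 ≤ C * T ^ ε * ((N : ℝ) + S.card) * N) :
    FewDeleted := by
  classical
  intro ε hε
  obtain ⟨C, hC, h1⟩ := h ε hε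
  refine ⟨48 * C, by positivity, fun N T S hN hT hS J hJ η hη => ?_⟩
  have hN' : (0 : ℝ) < N := by exact_mod_cast hN
  have hT0 : 0 < T := by linarith
  rcases J.eq_empty_or_nonempty with rfl | hne
  · refine ⟨∅, subset_rfl, by simp, fun c => ?_⟩
    simp
  have hJ0 : (0 : ℝ) < J.card := by exact_mod_cast hne.card_pos
  set B : ℝ := C * T ^ ε * ((N : ℝ) + S.card) * N with hB
  have hB0 : 0 < B := by positivity
  obtain ⟨w, hw0, hw1, hw⟩ := weights_on N S B hB0 (h1 N T S hN hT hS) J hJ hne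
  refine ⟨J.filter fun n => w n ≤ 1 / (η * J.card), filter_subset _ _, ?_, fun c => ?_⟩
  · have h2 : ((J \ J.filter fun n => w n ≤ 1 / (η * J.card)).card : ℝ) * (1 / (η * J.card)) ≤
        ∑ n ∈ J, w n := by
      rw [← nsmul_eq_mul, ← sum_const]
      calc ∑ n ∈ J \ J.filter (fun n => w n ≤ 1 / (η * J.card)), 1 / (η * J.card)
          ≤ ∑ n ∈ J \ J.filter (fun n => w n ≤ 1 / (η * J.card)), w n := by
            refine sum_le_sum fun n hn => ?_
            rw [mem_sdiff, mem_filter] at hn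
            by_contra hcon
            push Not at hcon
            exact hn.2 ⟨hn.1, hcon.le⟩
        _ ≤ ∑ n ∈ J, w n := sum_le_sum_of_subset_of_nonneg sdiff_subset fun n _ _ => hw0 n
    rw [hw1, mul_one_div, div_le_one (by positivity)] at h2
    exact h2
  · set I : Finset ℕ := J.filter fun n => w n ≤ 1 / (η * J.card) with hI
    have h3 := dual I S e (48 * B / (η * J.card)) (by positivity) (by
      intro b
      have h4 := hw (fun n => if n ∈ I then b n else 0)
      have e1 : ∀ t, ∑ n ∈ J, (if n ∈ I then b n else 0) * e n t = ∑ n ∈ I, b n * e n t := by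
        intro t
        rw [← sum_subset (filter_subset _ J : I ⊆ J)]
        · refine sum_congr rfl fun n hn => ?_
          rw [if_pos hn]
        · intro n _ hn
          rw [if_neg hn, zero_mul]
      simp only [e1] at h4
      refine h4.trans ?_
      have h5 : ∑ n ∈ J, w n * ‖if n ∈ I then b n else 0‖ ^ 2 ≤
          1 / (η * J.card) * ∑ n ∈ I, ‖b n‖ ^ 2 := by
        rw [← sum_subset (filter_subset _ J : I ⊆ J), mul_sum]
        · refine sum_le_sum fun n hn => ?_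
          rw [if_pos hn]
          have := (mem_filter.1 hn).2
          gcongr
        · intro n _ hn
          rw [if_neg hn]
          simp
      calc 48 * B * ∑ n ∈ J, w n * ‖if n ∈ I then b n else 0‖ ^ 2
          ≤ 48 * B * (1 / (η * J.card) * ∑ n ∈ I, ‖b n‖ ^ 2) := by gcongr
        _ = _ := by ring) c
    refine h3.trans (le_of_eq ?_)
    rw [hB]
    field_simp

theorem some_of_few (h : FewDeleted) : SomeKept := by
  classical
  intro ε hε
  obtain ⟨C, hC, h1⟩ := h ε hε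
  refine ⟨2 + 4 * C, by positivity, fun N T W hN hT hW hc J hJ hJW => ?_⟩
  have hN' : (1 : ℝ) ≤ N := by exact_mod_cast hN
  have hN0 : (0 : ℝ) < N := by linarith
  have hT0 : 0 < T := by linarith
  have hTε : 1 ≤ T ^ ε := Real.one_le_rpow hT hε.le
  set S : Finset ℝ := W.image fun t : ℤ => (t : ℝ) with hSdef
  have hScard : S.card = W.card := card_image_of_injective _ Int.cast_injective
  have hS : Spaced T S := by
    constructor
    · intro t ht
      rw [hSdef, mem_image] at ht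
      obtain ⟨x, hx, rfl⟩ := ht
      exact hW x hx
    · intro t ht t' ht' hne
      rw [hSdef, mem_image] at ht ht'
      obtain ⟨m, _, rfl⟩ := ht
      obtain ⟨m', _, rfl⟩ := ht'
      have h3 : m ≠ m' := fun h => hne (by rw [h])
      have h4 : (1 : ℤ) ≤ |m - m'| := Int.one_le_abs (sub_ne_zero.2 h3)
      exact_mod_cast h4
  have hsum : ∀ g : ℝ → ℂ, ∑ t ∈ S, g t = ∑ t ∈ W, g t := by
    intro g
    rw [hSdef, sum_image fun x _ y _ h => Int.cast_injective h]
  obtain ⟨I, hIJ, hI, h2⟩ := h1 N T S hN hT hS J hJ (1 / 2) (by norm_num)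
  have hJ0 : (0 : ℝ) < J.card := by
    by_contra hcon
    push Not at hcon
    have : (J.card : ℝ) = 0 := le_antisymm hcon (Nat.cast_nonneg _)
    rw [this, zero_mul] at hJW
    linarith
  refine ⟨I, hIJ, ?_, ?_⟩
  · have h3 : (J.card : ℝ) = (J \ I).card + I.card := by
      rw [← card_sdiff_add_card_eq_card hIJ]
      push_cast
      rfl
    have h4 : (J.card : ℝ) ≤ 2 * I.card := by linarith
    refine h4.trans ?_
    gcongr
    nlinarith
  · have h3 := h2 1
    simp only [Pi.one_apply, one_mul, norm_one, one_pow, sum_const, nsmul_eq_mul, mul_one,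
      hScard] at h3
    simp only [hsum] at h3
    have hIJc : (I.card : ℝ) ≤ J.card := by exact_mod_cast card_le_card hIJ
    have hcN : (W.card : ℝ) ≤ N := by exact_mod_cast hc
    have h4 : (∑ n ∈ I, ‖∑ t ∈ W, e n t‖) ^ 2 ≤ (2 + 4 * C) * T ^ ε * (N : ℝ) ^ 2 * W.card := by
      calc (∑ n ∈ I, ‖∑ t ∈ W, e n t‖) ^ 2 ≤ I.card * ∑ n ∈ I, ‖∑ t ∈ W, e n t‖ ^ 2 :=
            sq_sum_le_card_mul_sum_sq
        _ ≤ J.card * (C / (1 / 2) * T ^ ε * ((N : ℝ) + W.card) * (N / J.card) * W.card) := by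
            gcongr
        _ = 2 * C * T ^ ε * ((N : ℝ) + W.card) * N * W.card := by
            field_simp
        _ ≤ 2 * C * T ^ ε * ((N : ℝ) + N) * N * W.card := by gcongr
        _ = 4 * C * T ^ ε * (N : ℝ) ^ 2 * W.card := by ring
        _ ≤ _ := by
            have : 0 ≤ T ^ ε * (N : ℝ) ^ 2 * W.card := by positivity
            nlinarith
    have h5 : (2 + 4 * C) * T ^ ε * (N : ℝ) ^ 2 * W.card ≤
        ((2 + 4 * C) * T ^ ε * N * Real.sqrt W.card) ^ 2 := by
      rw [mul_pow, Real.sq_sqrt (Nat.cast_nonneg _), mul_pow]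
      have h6 : 1 ≤ (2 + 4 * C) * T ^ ε := by nlinarith
      have h7 : (2 + 4 * C) * T ^ ε ≤ ((2 + 4 * C) * T ^ ε) ^ 2 := by nlinarith
      gcongr
    exact le_of_sq_le_sq (h4.trans h5) (by positivity)

theorem large_of_some (h : SomeKept) : LargeValues := by
  classical
  refine Pool.Agent.Q239.LV.large_of_means ?_
  intro ε hε
  obtain ⟨C₀, hC₀, h1⟩ := h (ε / 3) (by positivity)
  set δ : ℝ := ε / 3 with hδ
  have hδ0 : 0 < δ := by positivity
  set C : ℝ := max C₀ 1 with hC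
  have hC1 : 1 ≤ C := le_max_right _ _
  have hC0 : C₀ ≤ C := le_max_left _ _
  refine ⟨C * (2 + C * (2 ^ δ / δ)), by positivity, fun N T W hN hT hW hc => ?_⟩
  have hN' : (1 : ℝ) ≤ N := by exact_mod_cast hN
  have hN0 : (0 : ℝ) < N := by linarith
  have hT0 : 0 < T := by linarith
  have hTδ : 1 ≤ T ^ δ := Real.one_le_rpow hT hδ0.le
  rcases W.eq_empty_or_nonempty with rfl | hWne
  · simp
  have hW1 : (1 : ℝ) ≤ W.card := by exact_mod_cast hWne.card_pos
  set r : ℝ := Real.sqrt W.card with hr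
  have hr1 : 1 ≤ r := Real.one_le_sqrt.2 hW1
  have hr2 : r * r = W.card := Real.mul_self_sqrt (by linarith)
  set g : ℕ → ℝ := fun n => ‖∑ t ∈ W, e n t‖ with hg
  have hg0 : ∀ n, 0 ≤ g n := fun n => norm_nonneg _
  have hge : ∀ n ∈ Icc 1 N, g n =
      ‖∑ t ∈ W, Pool.Agent.Q239.LV.ker (Real.log (n : ℝ)) (t : ℝ)‖ := by
    intro n hn
    rw [hg]
    simp only
    rw [← Complex.norm_conj, map_sum]
    congr 1
    refine sum_congr rfl fun t _ => ?_
    unfold e
    rw [Pool.Agent.Q239.LV.cpow_eq n (mem_Icc.1 hn).1, Complex.conj_conj]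
  rw [← sum_congr rfl hge]
  have hgle : ∀ n ∈ Icc 1 N, g n ≤ W.card := by
    intro n hn
    rw [hge n hn]
    refine (norm_sum_le _ _).trans ?_
    simp_rw [Pool.Agent.Q239.LV.norm_ker]
    rw [sum_const, nsmul_eq_mul, mul_one]
  set R : ℝ := C * T ^ δ with hR
  have hR1 : 1 ≤ R := by
    rw [hR]
    nlinarith
  set M : ℝ := R * N * r with hM
  have hNr : N * r ≤ M := by
    rw [hM]
    have : 0 ≤ (N : ℝ) * r := by positivity
    nlinarith
  have hM0 : 0 < M := by positivity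
  -- small sets of frequencies
  have small : ∀ J : Finset ℕ, J ⊆ Icc 1 N → (J.card : ℝ) * r < N → ∑ n ∈ J, g n ≤ M := by
    intro J hJ hs
    calc ∑ n ∈ J, g n ≤ ∑ n ∈ J, (W.card : ℝ) := sum_le_sum fun n hn => hgle n (hJ hn)
      _ = J.card * r * r := by rw [sum_const, nsmul_eq_mul, ← hr2]; ring
      _ ≤ N * r := by gcongr
      _ ≤ M := hNr
  have main : ∀ J : Finset ℕ, J ⊆ Icc 1 N → (N : ℝ) ≤ J.card * r →
      ∑ n ∈ J, g n ≤ M * (2 + R * Real.log (J.card * r / N)) := by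
    intro J
    induction J using Finset.strongInduction with
    | H J ih =>
      intro hJ hJr
      have hJ0 : (0 : ℝ) < J.card := by
        by_contra hcon
        push Not at hcon
        have : (J.card : ℝ) = 0 := le_antisymm hcon (Nat.cast_nonneg _)
        rw [this, zero_mul] at hJr
        linarith
      obtain ⟨I, hIJ, hI, h2⟩ := h1 N T W hN hT hW hc J hJ hJr
      have hI' : (J.card : ℝ) ≤ R * I.card := by
        refine hI.trans ?_
        rw [hR]
        exact mul_le_mul_of_nonneg_right (mul_le_mul_of_nonneg_right hC0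
          (Real.rpow_nonneg hT0.le δ)) (Nat.cast_nonneg _)
      have hI0 : (0 : ℝ) < I.card := by
        by_contra hcon
        push Not at hcon
        have : (I.card : ℝ) = 0 := le_antisymm hcon (Nat.cast_nonneg _)
        rw [this, mul_zero] at hI'
        linarith
      have h3 : ∑ n ∈ I, g n ≤ M := by
        refine h2.trans ?_
        rw [hM, hR]
        exact mul_le_mul_of_nonneg_right (mul_le_mul_of_nonneg_right
          (mul_le_mul_of_nonneg_right hC0 (Real.rpow_nonneg hT0.le δ)) hN0.le)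
          (by linarith)
      have hx1 : 1 ≤ (J.card : ℝ) * r / N := by
        rw [le_div_iff₀ hN0]
        linarith
      have hlog : 0 ≤ Real.log (J.card * r / N) := Real.log_nonneg hx1
      have hsplit : ∑ n ∈ J, g n = ∑ n ∈ J \ I, g n + ∑ n ∈ I, g n := (sum_sdiff hIJ).symm
      have h11 : ((J \ I).card : ℝ) = J.card - I.card := by
        rw [eq_sub_iff_add_eq]
        exact_mod_cast card_sdiff_add_card_eq_card hIJ
      rcases lt_or_ge (((J \ I).card : ℝ) * r) N with h7 | h7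
      · have h8 := small (J \ I) (sdiff_subset.trans hJ) h7
        have h9 : 0 ≤ R * Real.log (J.card * r / N) := mul_nonneg (by linarith) hlog
        rw [hsplit]
        nlinarith
      · have h8 : J \ I ⊂ J := by
          refine ⟨sdiff_subset, fun hcon => ?_⟩
          have h9 : I.Nonempty := by
            rw [← card_pos]
            exact_mod_cast hI0
          obtain ⟨n, hn⟩ := h9
          have := hcon (hIJ hn)
          rw [mem_sdiff] at this
          exact this.2 hn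
        have h9 := ih _ h8 (sdiff_subset.trans hJ) h7
        have h10 : (0 : ℝ) < (J \ I).card := by
          by_contra hcon
          push Not at hcon
          have : ((J \ I).card : ℝ) = 0 := le_antisymm hcon (Nat.cast_nonneg _)
          rw [this, zero_mul] at h7
          linarith
        have h12 : Real.log ((J \ I).card * r / N) ≤ Real.log (J.card * r / N) - 1 / R := by
          have e0 : ((J \ I).card : ℝ) * r / N =
              ((J \ I).card / J.card : ℝ) * (J.card * r / N) := by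
            field_simp
          rw [e0, Real.log_mul (div_pos h10 hJ0).ne' (by linarith : (J.card : ℝ) * r / N ≠ 0)]
          have h13 : Real.log ((J \ I).card / J.card) ≤ (J \ I).card / J.card - 1 :=
            Real.log_le_sub_one_of_pos (div_pos h10 hJ0)
          have h14 : ((J \ I).card : ℝ) / J.card - 1 ≤ - (1 / R) := by
            rw [h11, sub_div, div_self hJ0.ne']
            have : 1 / R ≤ I.card / J.card := by
              rw [div_le_div_iff₀ (by linarith) hJ0]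
              linarith
            linarith
          linarith
        have h15 : R * Real.log ((J \ I).card * r / N) ≤ R * Real.log (J.card * r / N) - 1 := by
          have h16 : R * Real.log ((J \ I).card * r / N) ≤
              R * (Real.log (J.card * r / N) - 1 / R) :=
            mul_le_mul_of_nonneg_left h12 (by linarith)
          have e2 : R * (Real.log (J.card * r / N) - 1 / R) =
              R * Real.log (J.card * r / N) - 1 := by
            rw [mul_sub, mul_one_div, div_self (by linarith : R ≠ 0)]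
          linarith
        rw [hsplit]
        have h17 : M * (2 + R * Real.log ((J \ I).card * r / N)) ≤
            M * (1 + R * Real.log (J.card * r / N)) :=
          mul_le_mul_of_nonneg_left (by linarith) hM0.le
        nlinarith
  have hcard : ((Icc 1 N).card : ℝ) = N := by simp
  have h2 := main (Icc 1 N) subset_rfl (by rw [hcard]; nlinarith)
  rw [hcard] at h2
  have e3 : (N : ℝ) * r / N = r := by field_simp
  rw [e3] at h2
  have h4 : Real.log r ≤ 2 ^ δ / δ * T ^ δ := by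
    have h5 : (W.card : ℝ) ≤ 2 * T := by
      have h := Pool.Agent.Q239.LV.card_le_of_sep T hT (W.image (fun t : ℤ => (t : ℝ))) (by
        intro t ht
        rw [mem_image] at ht
        obtain ⟨x, hx, rfl⟩ := ht
        exact hW x hx) (by
        intro t ht t' ht' hne
        rw [mem_image] at ht ht'
        obtain ⟨m, _, rfl⟩ := ht
        obtain ⟨m', _, rfl⟩ := ht'
        have h3 : m ≠ m' := fun h => hne (by rw [h])
        have h4 : (1 : ℤ) ≤ |m - m'| := Int.one_le_abs (sub_ne_zero.2 h3)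
        exact_mod_cast h4)
      rwa [card_image_of_injective _ Int.cast_injective] at h
    have h6 : r ≤ 2 * T := by
      refine le_trans ?_ h5
      nlinarith
    calc Real.log r ≤ Real.log (2 * T) := Real.log_le_log (by linarith) h6
      _ ≤ (2 * T) ^ δ / δ := Real.log_le_rpow_div (by positivity) hδ0
      _ = _ := by
        rw [Real.mul_rpow (by norm_num) hT0.le]
        ring
  refine h2.trans ?_
  have e4 : T ^ ε = T ^ δ * (T ^ δ * T ^ δ) := by
    rw [← Real.rpow_add hT0, ← Real.rpow_add hT0]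
    congr 1
    rw [hδ]
    ring
  have h5 : 2 + R * Real.log r ≤ (2 + C * (2 ^ δ / δ)) * (T ^ δ * T ^ δ) := by
    have h6 : R * Real.log r ≤ C * T ^ δ * (2 ^ δ / δ * T ^ δ) := by
      rw [← hR]
      exact mul_le_mul_of_nonneg_left h4 (by linarith)
    have h7 : 1 ≤ T ^ δ * T ^ δ := by nlinarith
    calc 2 + R * Real.log r ≤ 2 * (T ^ δ * T ^ δ) + C * T ^ δ * (2 ^ δ / δ * T ^ δ) := by
          linarith
      _ = _ := by ring
  calc M * (2 + R * Real.log r) ≤ M * ((2 + C * (2 ^ δ / δ)) * (T ^ δ * T ^ δ)) :=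
        mul_le_mul_of_nonneg_left h5 hM0.le
    _ = _ := by
      rw [hM, hR, e4]
      ring

/-- **The equivalence.** -/
theorem result : List.TFAE [LargeValues, Weighted, FewDeleted, SomeKept] := by
  tfae_have 1 → 2 := weighted_of_large
  tfae_have 2 → 3 := fun h => few_of_mean (mean_of_weighted h)
  tfae_have 3 → 4 := some_of_few
  tfae_have 4 → 1 := large_of_some
  tfae_finish

end Pool.Agent.Results.MP_a93a41_nt.DeletedFrequencies
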