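import Pool.Agent.Q239.LV.Fam

/-!
# Large values at well-spaced points: only large families of integers matter

Q1 asks for `R ≤ C N² V⁻² T^ε` for all `1`-spaced families of real numbers in `[0,T]` at which
`|D| ≥ V`, `V² ≥ N T^ε`. It is equivalent to the same bound for the families of INTEGERS in `[0,T]`
with at least `min(N, √T)/45` elements.
-/

set_option autoImplicit false

open Finset

namespace Pool.Agent.Results.MP_a93a41_nt.LargeFamilies

/-- the statement of Q1 -/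
def Q1 : Prop :=
  ∀ ε : ℝ, 0 < ε → ∃ C : ℝ, 0 < C ∧
    ∀ (N : ℕ) (T V : ℝ) (a : ℕ → ℂ) (S : Finset ℝ),
      1 ≤ N → 1 ≤ T → 0 < V →
      (∀ n, ‖a n‖ ≤ 1) →
      (N : ℝ) * T ^ ε ≤ V ^ 2 →
      (∀ t ∈ S, 0 ≤ t ∧ t ≤ T ∧
        V ≤ ‖∑ n ∈ Finset.Icc 1 N, a n * (n : ℂ) ^ (-((t : ℂ) * Complex.I))‖) →
      (∀ t ∈ S, ∀ u ∈ S, t ≠ u → 1 ≤ |t - u|) →
      (S.card : ℝ) ≤ C * (N : ℝ) ^ 2 / V ^ 2 * T ^ ε

/-- the statement of Q1 for families of integers with at least `min(N, √T)/45` elements -/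
def Q1Large : Prop :=
  ∀ ε : ℝ, 0 < ε → ∃ C : ℝ, 0 < C ∧
    ∀ (N : ℕ) (T V : ℝ) (a : ℕ → ℂ) (W : Finset ℤ),
      1 ≤ N → 1 ≤ T → 0 < V →
      (∀ n, ‖a n‖ ≤ 1) →
      (N : ℝ) * T ^ ε ≤ V ^ 2 →
      (∀ t ∈ W, 0 ≤ (t : ℝ) ∧ (t : ℝ) ≤ T ∧
        V ≤ ‖∑ n ∈ Finset.Icc 1 N, a n * (n : ℂ) ^ (-(((t : ℝ) : ℂ) * Complex.I))‖) →
      min (N : ℝ) (Real.sqrt T) ≤ 45 * W.card →
      (W.card : ℝ) ≤ C * (N : ℝ) ^ 2 / V ^ 2 * T ^ ε

/-- **Q1 is equivalent to its restriction to families of integers with at least `min(N, √T)/45`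
elements.** -/
theorem result : Q1 ↔ Q1Large := by
  constructor
  · intro H ε hε
    obtain ⟨C, hC, h⟩ := H ε hε
    refine ⟨C, hC, fun N T V a W hN hT hV ha hVT hW _ => ?_⟩
    have h1 := h N T V a (W.image fun t : ℤ => (t : ℝ)) hN hT hV ha hVT (by
      intro t ht
      rw [Finset.mem_image] at ht
      obtain ⟨x, hx, rfl⟩ := ht
      exact hW x hx) (by
      intro t ht t' ht' hne
      rw [Finset.mem_image] at ht ht'
      obtain ⟨m, _, rfl⟩ := ht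
      obtain ⟨m', _, rfl⟩ := ht'
      have h3 : m ≠ m' := fun h => hne (by rw [h])
      have h4 : (1 : ℤ) ≤ |m - m'| := Int.one_le_abs (sub_ne_zero.2 h3)
      exact_mod_cast h4)
    rwa [Finset.card_image_of_injective _ Int.cast_injective] at h1
  · intro H
    exact Pool.Agent.Q239.LV.large_of_means (Pool.Agent.Q239.LV.means_of_families H)

end Pool.Agent.Results.MP_a93a41_nt.LargeFamilies
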