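import Pool.Agent.Q239.LV.Fam

/-!
# Large values at well-spaced points: a statement on pairs of sets of integers

Q1 is equivalent to `|∑_{n ∈ A} ∑_{t ∈ W} n^{-it}| ≤ C N T^ε |W|^(1/2)` for all sets of integers
`A ⊂ [1, N]` and `W ⊂ [0, T]`, `min(N, √T)/4 ≤ |W| ≤ N`: no coefficients, no level `V`, only integer
points and only large sets.
-/

set_option autoImplicit false

open Finset

namespace Pool.Agent.Results.MP_a93a41_nt.PairsOfSets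

/-- the statement of Q1 -/
def Q1 : Prop :=
  ∀ ε : ℝ, 0 < ε → ∃ C : ℝ, 0 < C ∧
    ∀ (N : ℕ) (T V : ℝ) (a : ℕ → ℂ) (S : Finset ℝ),
      1 ≤ N → 1 ≤ T → 0 < V →
      (∀ n, ‖a n‖ ≤ 1) →
      (N : ℝ) * T ^ ε ≤ V ^ 2 →
      (∀ t ∈ S, 0 ≤ t ∧ t ≤ T ∧
        V ≤ ‖∑ n ∈ Finset.Icc 1 N, a n * (n : ℂ) ^ (-((t : ℂ) * Complex.I))‖) →
      (∀ t ∈ S, ∀ u ∈ S, t ≠ u → 1 ≤ |t - u|) →
      (S.card : ℝ) ≤ C * (N : ℝ) ^ 2 / V ^ 2 * T ^ ε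

/-- the double sums of `n^{-it}` over the pairs of sets of integers `A ⊂ [1, N]` and `W ⊂ [0, T]`,
`min(N, √T)/4 ≤ |W| ≤ N`, are at most `C N T^ε |W|^(1/2)` -/
def Pairs : Prop :=
  ∀ ε : ℝ, 0 < ε → ∃ C : ℝ, 0 < C ∧
    ∀ (N : ℕ) (T : ℝ) (A : Finset ℕ) (W : Finset ℤ), 1 ≤ N → 1 ≤ T →
      (∀ n ∈ A, 1 ≤ n ∧ n ≤ N) → (∀ t ∈ W, 0 ≤ (t : ℝ) ∧ (t : ℝ) ≤ T) →
      min (N : ℝ) (Real.sqrt T) ≤ 4 * W.card → W.card ≤ N →
      ‖∑ n ∈ A, ∑ t ∈ W, (n : ℂ) ^ (-(((t : ℝ) : ℂ) * Complex.I))‖ ≤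
        C * N * T ^ ε * Real.sqrt W.card

/-- the sum over `n ≤ N` of the absolute values of the sums of `n^{-it}` over the sets of integers
`W ⊂ [0, T]`, `|W| ≤ N`, is at most `C N T^ε |W|^(1/2)` -/
def Means : Prop :=
  ∀ ε : ℝ, 0 < ε → ∃ C : ℝ, 0 < C ∧
    ∀ (N : ℕ) (T : ℝ) (W : Finset ℤ), 1 ≤ N → 1 ≤ T →
      (∀ t ∈ W, 0 ≤ (t : ℝ) ∧ (t : ℝ) ≤ T) → W.card ≤ N →
      ∑ n ∈ Finset.Icc 1 N, ‖∑ t ∈ W, (n : ℂ) ^ (-(((t : ℝ) : ℂ) * Complex.I))‖ ≤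
        C * N * T ^ ε * Real.sqrt W.card

open Pool.Agent.Q239.LV

lemma norm_eq (n : ℕ) (hn : 1 ≤ n) (W : Finset ℤ) :
    ‖∑ t ∈ W, (n : ℂ) ^ (-(((t : ℝ) : ℂ) * Complex.I))‖ =
      ‖∑ t ∈ W, ker (Real.log (n : ℝ)) (t : ℝ)‖ := by
  rw [← Complex.norm_conj, map_sum]
  congr 1
  refine Finset.sum_congr rfl fun t _ => ?_
  rw [cpow_eq n hn, Complex.conj_conj]

lemma norm_eq' (A : Finset ℕ) (hA : ∀ n ∈ A, 1 ≤ n) (W : Finset ℤ) :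
    ‖∑ n ∈ A, ∑ t ∈ W, (n : ℂ) ^ (-(((t : ℝ) : ℂ) * Complex.I))‖ =
      ‖∑ n ∈ A, ∑ t ∈ W, ker (Real.log (n : ℝ)) (t : ℝ)‖ := by
  rw [← Complex.norm_conj, map_sum]
  congr 1
  refine Finset.sum_congr rfl fun n hn => ?_
  rw [map_sum]
  refine Finset.sum_congr rfl fun t _ => ?_
  rw [cpow_eq n (hA n hn), Complex.conj_conj]

lemma means_of_q1 (H : Q1) : Means := by
  intro ε hε
  obtain ⟨C, hC, h⟩ := means_of_families (fun ε hε => by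
    obtain ⟨C, hC, h⟩ := H ε hε
    refine ⟨C, hC, fun N T V a W hN hT hV ha hVT hW _ => ?_⟩
    have h1 := h N T V a (W.image fun t : ℤ => (t : ℝ)) hN hT hV ha hVT (by
      intro t ht
      rw [Finset.mem_image] at ht
      obtain ⟨x, hx, rfl⟩ := ht
      exact hW x hx) (by
      intro t ht t' ht' hne
      rw [Finset.mem_image] at ht ht'
      obtain ⟨m, _, rfl⟩ := ht
      obtain ⟨m', _, rfl⟩ := ht'
      have h3 : m ≠ m' := fun h => hne (by rw [h])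
      have h4 : (1 : ℤ) ≤ |m - m'| := Int.one_le_abs (sub_ne_zero.2 h3)
      exact_mod_cast h4)
    rwa [Finset.card_image_of_injective _ Int.cast_injective] at h1) ε hε
  refine ⟨C, hC, fun N T W hN hT hW hc => ?_⟩
  refine le_trans (le_of_eq ?_) (h N T W hN hT hW hc)
  exact Finset.sum_congr rfl fun n hn => norm_eq n (Finset.mem_Icc.1 hn).1 W

lemma pairs_of_means (H : Means) : Pairs := by
  intro ε hε
  obtain ⟨C, hC, h⟩ := H ε hε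
  refine ⟨C, hC, fun N T A W hN hT hA hW _ hc => ?_⟩
  calc _ ≤ ∑ n ∈ A, ‖∑ t ∈ W, (n : ℂ) ^ (-(((t : ℝ) : ℂ) * Complex.I))‖ := norm_sum_le _ _
    _ ≤ ∑ n ∈ Finset.Icc 1 N, ‖∑ t ∈ W, (n : ℂ) ^ (-(((t : ℝ) : ℂ) * Complex.I))‖ :=
        Finset.sum_le_sum_of_subset_of_nonneg (fun n hn => Finset.mem_Icc.2 (hA n hn))
          (fun _ _ _ => norm_nonneg _)
    _ ≤ _ := h N T W hN hT hW hc

lemma q1_of_pairs (H : Pairs) : Q1 := by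
  refine large_of_means (means_of_pairs fun ε hε => ?_)
  obtain ⟨C, hC, h⟩ := H ε hε
  refine ⟨C, hC, fun N T A W hN hT hA hW hmin hc => ?_⟩
  rw [← norm_eq' A (fun n hn => (hA n hn).1)]
  exact h N T A W hN hT hA hW hmin hc

/-- **Q1 is equivalent to the bound `C N T^ε |W|^(1/2)` for the double sums of `n^{-it}` over the
pairs of sets of integers `A ⊂ [1, N]` and `W ⊂ [0, T]`, `min(N, √T)/4 ≤ |W| ≤ N`**, and to the bound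
for the `ℓ¹` norms for all `W`, `|W| ≤ N`. -/
theorem result : (Q1 ↔ Pairs) ∧ (Q1 ↔ Means) :=
  ⟨⟨fun H => pairs_of_means (means_of_q1 H), q1_of_pairs⟩,
    ⟨means_of_q1, fun H => q1_of_pairs (pairs_of_means H)⟩⟩

end Pool.Agent.Results.MP_a93a41_nt.PairsOfSets
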